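import Pool.Agent.H84.S2.Tg
import Pool.Agent.H70.SF.DSO

/-!
# MP_70ba79_ag, THEOREM S, part 2: `DSH`, the curve is a solution of the equation in the local ring,
up to powers of `J` and `S`
-/

set_option autoImplicit false

namespace Pool.Agent.H80.S2

open MvPolynomial SC
open Pool.Agent.H27.LV (ge deg poleOrder canDeg)
open Pool.Agent.H84.SM (cr dt dp)
open Pool.Agent.H3.SF (Itg Bb BB Hm eu grd hes Sfc Crd Cnn Crf Prm nv gx)
open Pool.Agent.H84.SF Pool.Agent.H3.S2 Pool.Agent.H84.S2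
open Pool.Agent.H92.SF (hq)
open Pool.Agent.H62.HIL (hm_mul hm_sub hm_one hm_zero hm_pow hm_sum hm_aeval)
open Pool.Agent.H70.SF

theorem final_id2 {F : Type} [Field F]
    (L Bl js ss pl a1 gs w1 dps Jv Sv T Av G ul EQ DP M : F)
    (j0 c α m d sg : ℕ) (hL : L ≠ 0) (hm : 2 ≤ m) (hd : d + m = j0 + c + 1 + sg)
    (h1 : Bl * L ^ (α + j0 + 3) = Jv * T) (h2 : js * L ^ j0 = Jv) (hs : ss * L ^ sg = Sv)
    (h3 : pl * L = ul)
    (h4 : a1 * L ^ (α + j0) = Jv * Av) (h5 : gs * L ^ m = G)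
    (h6 : w1 * L ^ (j0 + (α + 6 * j0 + (2 * m - 3))) * (L ^ (d + 1)) ^ 3 * G = Jv * EQ)
    (h7 : dps * (L ^ (d + 1) * L) = DP)
    (h8 : Jv ^ 6 * (Jv * Sv * ul ^ c) ^ 3 * T =
      EQ - M * G * Av * Jv ^ 6 * (Jv * Sv * ul ^ c) ^ 2 * DP) :
    Bl * js ^ 9 * ss ^ 3 * pl ^ (3 * c) =
      gs * (w1 - M * a1 * js ^ 6 * (js * ss * pl ^ c) ^ 2 * dps) := by
  have hJ : Jv = js * L ^ j0 := h2.symm
  have h9 : Jv ^ 6 * (Jv * Sv * ul ^ c) ^ 3 * (Jv * T) =
      Jv * EQ - M * G * (Jv * Av) * Jv ^ 6 * (Jv * Sv * ul ^ c) ^ 2 * DP := by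
    linear_combination Jv * h8
  rw [← h1, ← h6, ← h4, ← h7, ← h5, ← h3, ← hs, hJ] at h9
  have e1 : L ^ (10 * j0 + 3 * c + α + 3 + 3 * sg) =
      L ^ (j0 + (α + 6 * j0 + (2 * m - 3))) * (L ^ (d + 1)) ^ 3 * L ^ m := by
    rw [← pow_mul, ← pow_add, ← pow_add]
    congr 1
    omega
  have e2 : L ^ (10 * j0 + 3 * c + α + 3 + 3 * sg) =
      L ^ m * L ^ (α + j0) * (L ^ j0) ^ 6 * (L ^ j0 * L ^ sg * L ^ c) ^ 2 * L ^ (d + 1) * L := by
    have h : 10 * j0 + 3 * c + α + 3 + 3 * sg =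
        m + (α + j0) + j0 * 6 + (j0 + sg + c) * 2 + (d + 1) + 1 := by
      omega
    rw [h]
    ring
  apply mul_right_cancel₀ (pow_ne_zero (10 * j0 + 3 * c + α + 3 + 3 * sg) hL)
  have e3 : Bl * js ^ 9 * ss ^ 3 * pl ^ (3 * c) * L ^ (10 * j0 + 3 * c + α + 3 + 3 * sg) =
      (js * L ^ j0) ^ 6 * (js * L ^ j0 * (ss * L ^ sg) * (pl * L) ^ c) ^ 3 *
        (Bl * L ^ (α + j0 + 3)) := by
    ring
  rw [e3, h9]
  linear_combination (-(gs * w1)) * e1 +
    gs * (M * a1 * js ^ 6 * (js * ss * pl ^ c) ^ 2 * dps) * e2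

theorem pf_DSH (hUNZ : T_UNZ) (hHMF : T_HMF) (hHDD : T_HDD) (hDSI : T_DSI) : T_DSH := by
  intro k F σ _ _ _ _ _ _ _ X u dd J j0 m G sg S hY hm2 hD s hs0 hC L0 hL0 hsL0 cX δ hδ hδL hδG
    Gs hgs α A b hB p A1 b1 hLf
  classical
  haveI : CharZero F := charZero_of_injective_algebraMap (algebraMap k F).injective
  have hLne : aeval X L0 ≠ 0 := fun h => hsL0 (hC.pt L0 h)
  have hJhm : Hm k (eu u dd) (j0 : ℤ) (aeval u J) := hm_aeval (hm_u u dd hY.ddu) hY.Jh
  have hAhm : Hm k (eu u dd) (α : ℤ) (aeval u A) := hm_aeval (hm_u u dd hY.ddu) hB.hA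
  -- the derivation
  have hδu : ∀ j, (∑ l, cX l • dd l) (u j) = cX j := dsum_u cX u dd hY.ddu
  have hdp : ∀ h : Os X s, ∀ z : F, (h : F) * aeval X L0 = z →
      ((δ h : Os X s) : F) * aeval X L0 = (∑ l, cX l • dd l) z := by
    intro h z hz
    rw [hδ, ← hz, Derivation.leibniz, hδL, smul_zero, zero_add, smul_eq_mul, mul_comm]
  have hp1 : ∀ i, ((δ (p i) : Os X s) : F) * aeval X L0 = cX i := by
    intro i
    rw [hdp (p i) (u i) (hLf.hp i), hδu]
  have hp2 : ∀ i, ((δ (δ (p i)) : Os X s) : F) * aeval X L0 = (∑ l, cX l • dd l) (cX i) :=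
    fun i => hdp (δ (p i)) (cX i) (hp1 i)
  -- the element `l`
  obtain ⟨l, U, hU1, hU2, hU3⟩ := hUNZ k F σ X u dd J j0 hY s hs0 hC
  have hul : u l ≠ 0 := hY.ind.ne_zero l
  have hUne : aeval X U ≠ 0 := by rw [hU2]; exact hul
  obtain ⟨pi', hpi⟩ := mkO X s U hU1 hU3 hUne 1 L0 hL0
  have hunit : p l * pi' = 1 := by
    apply Subtype.coe_injective
    show ((p l : Os X s) : F) * (pi' : F) = 1
    have h1 := hLf.hp l
    rw [pow_one, hU2] at hpi
    apply mul_right_cancel₀ (mul_ne_zero hLne hul)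
    linear_combination (pi' : F) * u l * h1 + u l * hpi
  -- the certificate
  obtain ⟨c0, hc0⟩ := hD.cert
  obtain ⟨e, he, hsum⟩ := hc0 l
  have hulI : Itg k u (u l) := by
    have := itg_aeval (k := k) u (MvPolynomial.X l)
    rwa [aeval_X] at this
  have hulm : Itg k u (u l ^ m) := (Bb k u).pow_mem hulI m
  have hfe0 : ∀ i, ∃ f : MvPolynomial σ k, f.IsHomogeneous (j0 + (c0 + 1 + sg)) ∧
      aeval X f = aeval u J * (e i * u l ^ m) := by
    intro i
    have h1 : Itg k u (e i * u l ^ m) := (Bb k u).mul_mem (he i).1 hulm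
    refine hHMF k F σ X u dd J j0 hY _ _ (hY.JI _ h1) ?_
    have h2 := hm_mul hJhm (hm_mul (he i).2 (hm_pow (hm_u u dd hY.ddu l) m))
    have h3 : (j0 : ℤ) + (((c0 : ℤ) + 1 + sg - m) + (m : ℤ) * 1) =
        ((j0 + (c0 + 1 + sg) : ℕ) : ℤ) := by
      push_cast
      ring
    rwa [h3] at h2
  choose f hf hfe using hfe0
  have hfs : ∑ i, aeval X (f i) * dd i G = aeval u J * aeval u S * u l ^ (c0 + m) := by
    have h1 : ∑ i, aeval X (f i) * dd i G = aeval u J * u l ^ m * ∑ i, e i * dd i G := by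
      rw [Finset.mul_sum]
      refine Finset.sum_congr rfl fun i _ => ?_
      rw [hfe i]; ring
    rw [h1, ← hsum]; ring
  have hgm : ∀ i, Hm k (eu u dd) ((m : ℤ) - 1) (dd i G) := fun i =>
    hHDD k F u dd hY.ddu hY.comm m G i hD.hom
  have hHm : ∀ i j, Hm k (eu u dd) ((m : ℤ) - 2) (dd i (dd j G)) := fun i j => by
    have := hHDD k F u dd hY.ddu hY.comm ((m : ℤ) - 1) (dd j G) i (hgm j)
    have h2 : ((m : ℤ) - 1 - 1) = (m : ℤ) - 2 := by ring
    rwa [h2] at this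
  -- the identity
  obtain ⟨Q0, hQhom, hQhc, hQitg, hQid⟩ : ∃ Q0 : MvPolynomial (Fin 3) F, Q0.IsHomogeneous 3 ∧
      (∀ a, Hm k (eu u dd) ((α : ℤ) + 6 * j0 + 3 * m - 3) (Q0.coeff a)) ∧
      (∀ a, Itg k u (Q0.coeff a / G)) ∧
      aeval u J ^ 6 * (aeval u J * aeval u S * u l ^ (c0 + m)) ^ 3 * (aeval u A *
        dt u cX (fun i => (∑ l, cX l • dd l) (cX i)) + eval cX b) =
      eval (cr cX (fun i => aeval X (f i))) Q0 - m * G * aeval u A * aeval u J ^ 6 *
        (aeval u J * aeval u S * u l ^ (c0 + m)) ^ 2 * dp (cr cX (fun i => aeval X (f i)))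
          (fun i => (∑ l, cX l • dd l) (cX i)) := by
    refine ⟨_, q0_hom (aeval u J) (aeval u A) u (grd dd G) (hes dd G) b hB.hb,
      q0_hc (k := k) (E := eu u dd) j0 m α (aeval u J) (aeval u A) u (grd dd G) (hes dd G) b hB.hb
        hB.hm hJhm hAhm (hm_u u dd hY.ddu) hgm hHm, hB.comp, ?_⟩
    refine hDSI F (Derivation.restrictScalars ℤ (∑ l, cX l • dd l)) m u (grd dd G) cX
      (fun i => aeval X (f i)) G (aeval u A) (aeval u J)
      (aeval u J * aeval u S * u l ^ (c0 + m)) (hes dd G) b hB.hb ?_ ?_ ?_ ?_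
    · have h1 := hD.hom
      unfold Hm eu at h1
      rw [dsum] at h1
      unfold dp grd
      rw [h1]
      simp
    · rw [dsum] at hδG
      unfold dp grd
      rw [← hδG]
      exact Finset.sum_congr rfl fun i _ => mul_comm _ _
    · intro i
      change (∑ l, cX l • dd l) (dd i G) = _
      rw [dsum]
      unfold hes
      exact Finset.sum_congr rfl fun j _ => mul_comm _ _
    · unfold dp grd
      rw [← hfs]
      exact Finset.sum_congr rfl fun i _ => mul_comm _ _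
  -- elements of the local ring
  choose UU hUU1 hUU2 using hY.ulin
  have hform : ∀ (P : MvPolynomial (Fin 3) k) (n : ℕ), P.IsHomogeneous n →
      ∃ q : Os X s, (q : F) * aeval X L0 ^ n = aeval u P := by
    intro P n hP
    obtain ⟨q, hq⟩ := mkO X s L0 hL0 hsL0 hLne n (aeval UU P) (by
      have := hP.aeval UU (n := 1) hUU1
      simpa using this)
    refine ⟨q, ?_⟩
    rw [hq]
    have h1 : (aeval X : MvPolynomial σ k →ₐ[k] F).comp
        (aeval UU : MvPolynomial (Fin 3) k →ₐ[k] MvPolynomial σ k) = aeval u := by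
      apply algHom_ext
      intro i
      rw [AlgHom.comp_apply, aeval_X, aeval_X, hUU2]
    exact DFunLike.congr_fun h1 P
  obtain ⟨js, hjs⟩ := hform J j0 hY.Jh
  obtain ⟨Ss, hSs⟩ := hform S sg hD.Sh
  have hq : ∀ a, ∃ q : Os X s, (q : F) * aeval X L0 ^ (j0 + (α + 6 * j0 + (2 * m - 3))) =
      aeval u J * (Q0.coeff a / G) := by
    intro a
    refine mkI hHMF X u dd J j0 hY s L0 hL0 hsL0 hLne _ _ (hQitg a) ?_
    have h1 := Pool.Agent.H62.HIL.hm_div (hQhc a) hD.hom hD.ne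
    have h2 : (α : ℤ) + 6 * j0 + 3 * m - 3 - m = ((α + 6 * j0 + (2 * m - 3) : ℕ) : ℤ) := by
      omega
    rwa [h2] at h1
  choose q hq using hq
  choose es hes' using fun i => mkO X s L0 hL0 hsL0 hLne (j0 + (c0 + 1 + sg)) (f i) (hf i)
  have hρ : ∀ i, ((cr (fun i => δ (p i)) es i : Os X s) : F) *
      aeval X L0 ^ (j0 + (c0 + 1 + sg) + 1) = cr cX (fun i => aeval X (f i)) i := by
    intro i
    unfold cr
    push_cast
    rw [← hes' (i + 2), ← hes' (i + 1), ← hp1 (i + 1), ← hp1 (i + 2)]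
    ring
  obtain ⟨w1, hw1⟩ : ∃ w1 : Os X s, (w1 : F) * aeval X L0 ^ (j0 + (α + 6 * j0 + (2 * m - 3))) *
      (aeval X L0 ^ (j0 + (c0 + 1 + sg) + 1)) ^ 3 * G =
      aeval u J * eval (cr cX (fun i => aeval X (f i))) Q0 := by
    refine ⟨∑ a ∈ Q0.support, q a * ∏ i, cr (fun i => δ (p i)) es i ^ a i, ?_⟩
    have h0 : (((∑ a ∈ Q0.support, q a * ∏ i, cr (fun i => δ (p i)) es i ^ a i : Os X s)) : F) =
        ∑ a ∈ Q0.support, (q a : F) *
          ∏ i, ((cr (fun i => δ (p i)) es i : Os X s) : F) ^ a i := by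
      have := map_sum (Os X s).val (fun a => q a * ∏ i, cr (fun i => δ (p i)) es i ^ a i)
        Q0.support
      simpa using this
    rw [h0, eval_eq', Finset.mul_sum, Finset.sum_mul, Finset.sum_mul, Finset.sum_mul]
    refine Finset.sum_congr rfl fun a ha => ?_
    have h1 := hQhom (mem_support_iff.mp ha)
    rw [Finsupp.weight_apply, Finsupp.sum_fintype _ _ (by simp), Fin.sum_univ_three] at h1
    have h2 : a 0 + a 1 + a 2 = 3 := by simpa using h1
    have h3 : aeval u J * Q0.coeff a = (q a : F) *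
        aeval X L0 ^ (j0 + (α + 6 * j0 + (2 * m - 3))) * G := by
      rw [hq a]
      field_simp [hD.ne]
    rw [Fin.prod_univ_three, Fin.prod_univ_three, ← mul_assoc (aeval u J), h3, ← hρ 0, ← hρ 1,
      ← hρ 2]
    rw [mul_pow, mul_pow, mul_pow]
    have h4 : (aeval X L0 ^ (j0 + (c0 + 1 + sg) + 1)) ^ 3 =
        (aeval X L0 ^ (j0 + (c0 + 1 + sg) + 1)) ^ a 0 *
        (aeval X L0 ^ (j0 + (c0 + 1 + sg) + 1)) ^ a 1 *
        (aeval X L0 ^ (j0 + (c0 + 1 + sg) + 1)) ^ a 2 := by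
      rw [← pow_add, ← pow_add, h2]
    rw [h4]
    ring
  -- the value
  set bl : Os X s := A1 * dt p (fun i => δ (p i)) (fun i => δ (δ (p i))) +
      eval (fun i => δ (p i)) b1 with hb0
  have hbl : ((bl : Os X s) : F) * aeval X L0 ^ (α + j0 + 3) =
      aeval u J * (aeval u A * dt u cX (fun i => (∑ l, cX l • dd l) (cX i)) + eval cX b) := by
    have h1 := eval_lift ((Os X s).val : Os X s →+* F) 3 (α + j0) (aeval X L0) (aeval u J) b1 b
      hLf.hh hLf.hb (fun i => δ (p i)) cX hp1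
    have h2 := dt_map ((Os X s).val : Os X s →+* F) p (fun i => δ (p i))
      (fun i => δ (δ (p i)))
    have h3 : dt u cX (fun i => (∑ l, cX l • dd l) (cX i)) =
        dt (fun i => (p i : F)) (fun i => ((δ (p i) : Os X s) : F))
          (fun i => ((δ (δ (p i)) : Os X s) : F)) * aeval X L0 ^ 3 := by
      rw [← dt_scale]
      simp only [hLf.hp, hp1, hp2]
    have h4 : ((bl : Os X s) : F) = (A1 : F) *
        ((Os X s).val : Os X s →+* F) (dt p (fun i => δ (p i)) (fun i => δ (δ (p i)))) +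
        ((Os X s).val : Os X s →+* F) (eval (fun i => δ (p i)) b1) := by
      rw [hb0]
      rfl
    rw [h4, h2, add_mul, h1, h3, mul_add, ← mul_assoc (aeval u J) (aeval u A), ← hLf.hA]
    have h5 : aeval X L0 ^ (α + j0 + 3) = aeval X L0 ^ (α + j0) * aeval X L0 ^ 3 := pow_add _ _ _
    rw [h5]
    change (A1 : F) * dt (fun i => (p i : F)) (fun i => ((δ (p i) : Os X s) : F))
          (fun i => ((δ (δ (p i)) : Os X s) : F)) * _ + _ = _
    ring
  -- the identity in the local ring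
  have hkey : bl * js ^ 9 * Ss ^ 3 * p l ^ (3 * (c0 + m)) =
      Gs * (w1 - m * A1 * js ^ 6 * (js * Ss * p l ^ (c0 + m)) ^ 2 *
        dp (cr (fun i => δ (p i)) es) (fun i => δ (δ (p i)))) := by
    apply Subtype.coe_injective
    have h1 := final_id2 (aeval X L0) ((bl : Os X s) : F) js Ss (p l) A1 Gs w1
      ((dp (cr (fun i => δ (p i)) es) (fun i => δ (δ (p i))) : Os X s) : F)
      (aeval u J) (aeval u S) _ (aeval u A) G (u l) _ _ (m : F) j0 (c0 + m) α m
      (j0 + (c0 + 1 + sg)) sg hLne hm2 (by omega) hbl hjs hSs (hLf.hp l)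
      hLf.hA hgs hw1 ?_ hQid
    · simpa using h1
    · have h2 := dp_map ((Os X s).val : Os X s →+* F) (cr (fun i => δ (p i)) es)
        (fun i => δ (δ (p i)))
      have h3 : ((dp (cr (fun i => δ (p i)) es) (fun i => δ (δ (p i))) : Os X s) : F) =
          dp (fun i => ((cr (fun i => δ (p i)) es i : Os X s) : F))
            (fun i => ((δ (δ (p i)) : Os X s) : F)) := h2
      rw [h3]
      unfold dp
      rw [Finset.sum_mul]
      refine Finset.sum_congr rfl fun i _ => ?_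
      beta_reduce
      rw [← hρ i, ← hp2 i]
      ring
  refine ⟨js, Ss, hjs, hSs, ?_⟩
  refine ⟨(w1 - m * A1 * js ^ 6 * (js * Ss * p l ^ (c0 + m)) ^ 2 *
        dp (cr (fun i => δ (p i)) es) (fun i => δ (δ (p i)))) * pi' ^ (3 * (c0 + m)), ?_⟩
  have h1 : p l ^ (3 * (c0 + m)) * pi' ^ (3 * (c0 + m)) = 1 := by
    rw [← mul_pow, hunit, one_pow]
  calc bl * (js ^ 9 * Ss ^ 3) = bl * js ^ 9 * Ss ^ 3 *
        (p l ^ (3 * (c0 + m)) * pi' ^ (3 * (c0 + m))) := by rw [h1]; ring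
    _ = (bl * js ^ 9 * Ss ^ 3 * p l ^ (3 * (c0 + m))) * pi' ^ (3 * (c0 + m)) := by ring
    _ = _ := by rw [hkey]; ring

end Pool.Agent.H80.S2
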